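import Pool.Agent.H313R3.PW.E

/-!
# Zeros of the zeta function and primes in sparse short windows
-/

open Complex MeasureTheory ProbabilityTheory Filter Topology Set Metric
open ArithmeticFunction (vonMangoldt)
open scoped ContDiff

set_option linter.unusedSectionVars false
set_option autoImplicit false

namespace H313.PW

open H353 H313.LW

noncomputable section

theorem SS_aL (y : ℝ) : SS aL y = Chebyshev.psi y - ⌊y⌋₊ := by
  rw [← SS_psi]
  unfold SS
  have : ∀ n ∈ Finset.Icc 1 ⌊y⌋₊, aL n = aV n - 1 := by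
    intro n hn
    rw [Finset.mem_Icc] at hn
    unfold aL aV
    rw [if_neg (by omega)]
  rw [Finset.sum_congr rfl this, Finset.sum_sub_distrib]
  simp

theorem SS_aL_near (y K : ℝ) (hy : 0 ≤ y) : |SS aL y - K| ≤ |Chebyshev.psi y - y - K| + 1 := by
  rw [SS_aL]
  have h1 := Nat.floor_le hy
  have h2 := Nat.lt_floor_add_one y
  have e : Chebyshev.psi y - (⌊y⌋₊ : ℝ) - K = (Chebyshev.psi y - y - K) + (y - ⌊y⌋₊) := by ring
  rw [e]
  refine (abs_add_le _ _).trans ?_
  have : |y - (⌊y⌋₊ : ℝ)| ≤ 1 := by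
    rw [abs_le]
    constructor <;> linarith
  linarith

theorem psi_int (K p q : ℝ) : IntervalIntegrable (fun y => |Chebyshev.psi y - y - K|) volume p q := by
  have h1 : IntervalIntegrable Chebyshev.psi volume p q := Chebyshev.psi_mono.intervalIntegrable
  have h2 : IntervalIntegrable (fun y : ℝ => Chebyshev.psi y - y - K) volume p q :=
    (h1.sub (continuous_id.intervalIntegrable p q)).sub intervalIntegrable_const
  exact h2.abs

/-- **Lower bound for primes.** -/
theorem window_lower_psi (ρ : ℂ) (hρ : riemannZeta ρ = 0) (hre : 1 / 2 < ρ.re) (η : ℝ) (hη : 0 < η) :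
    ∃ c : ℝ, 0 < c ∧ ∀ᶠ x : ℝ in atTop, ∀ K : ℝ,
      c * x ^ (1 + ρ.re) ≤ ∫ y in x..(1 + η) * x, |Chebyshev.psi y - y - K| := by
  obtain ⟨c, hc, hlow⟩ := window_lowerG nice_lam ρ hρ hre η hη
  refine ⟨c / 2, by positivity, ?_⟩
  filter_upwards [hlow, rpow_ev (c / 2) 1 (1 + ρ.re) η (by positivity) (by linarith),
    eventually_ge_atTop (1:ℝ)] with x hx1 hx2 hx3 K
  have hx0 : 0 < x := by linarith
  have hxy : x ≤ (1 + η) * x := by nlinarith
  have h1 := hx1 K
  have h2 : ∫ y in x..(1 + η) * x, |SS aL y - K| ≤ ∫ y in x..(1 + η) * x, (|Chebyshev.psi y - y - K| + 1) := by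
    refine intervalIntegral.integral_mono_on hxy ?_ ((psi_int K _ _).add intervalIntegrable_const) fun y hy => ?_
    · rw [intervalIntegrable_iff_integrableOn_Icc_of_le hxy]
      exact SS_int aL K _ _
    · exact SS_aL_near y K (by linarith [hy.1])
  rw [intervalIntegral.integral_add (psi_int K _ _) intervalIntegrable_const, intervalIntegral.integral_const,
    smul_eq_mul, mul_one] at h2
  rw [Real.rpow_one] at hx2
  nlinarith

theorem free_FF (θ : ℝ) (h : ∀ s : ℂ, θ < s.re → riemannZeta s ≠ 0) (s : ℂ) (hs : θ < s.re) : FF s ≠ 0 := by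
  intro h0
  have hne : s ≠ 1 := by
    rintro rfl
    rw [show FF 1 = 1 from ZU.J_g2b.FF_one] at h0
    exact one_ne_zero h0
  rw [show FF s = (s - 1) * riemannZeta s from ZU.J_g2b.FF_ne hne] at h0
  rcases mul_eq_zero.1 h0 with h1 | h1
  · exact hne (sub_eq_zero.1 h1)
  · exact h s hs h1

/-- theta bound in a zero-free half plane -/
theorem theta_bound (θ : ℝ) (h0 : 1 / 2 ≤ θ) (h1 : θ < 1) (hz : ∀ s : ℂ, θ < s.re → riemannZeta s ≠ 0)
    (ε : ℝ) (hε : 0 < ε) : ∃ C : ℝ, 0 < C ∧ ∀ x : ℝ, 1 ≤ x → |Chebyshev.theta x - x| ≤ C * x ^ (θ + ε) := by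
  obtain ⟨C, hC, hb⟩ := psi_bound θ h0 h1 (free_FF θ hz) ε hε
  obtain ⟨C2, hC2⟩ := Chebyshev.psi_sub_theta_le_mul_sqrt
  refine ⟨C + |C2|, by positivity, fun x hx => ?_⟩
  have hx0 : 0 < x := by linarith
  have b1 := hb x hx
  rw [SS_psi] at b1
  have b2 := hC2 x
  have b3 := Chebyshev.theta_le_psi x
  have b4 : Real.sqrt x ≤ x ^ (θ + ε) := by
    rw [Real.sqrt_eq_rpow]
    exact Real.rpow_le_rpow_of_exponent_le hx (by linarith)
  have b5 : C2 * Real.sqrt x ≤ |C2| * x ^ (θ + ε) :=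
    (mul_le_mul_of_nonneg_right (le_abs_self C2) (Real.sqrt_nonneg x)).trans
      (mul_le_mul_of_nonneg_left b4 (abs_nonneg _))
  have b6 := abs_le.1 b1
  rw [abs_le]
  have b7 : 0 ≤ |C2| * x ^ (θ + ε) := by positivity
  constructor
  · nlinarith [b6.1]
  · nlinarith [b6.2]

theorem DW_of_free (θ : ℝ) (h0 : 1 / 2 ≤ θ) (h1 : θ < 1) (hz : ∀ s : ℂ, θ < s.re → riemannZeta s ≠ 0)
    (ε : ℝ) (hε : 0 < ε) : ∀ᶠ x : ℝ in atTop, ∀ y ∈ Icc x (2 * x), |DW x y| ≤ x ^ (θ + ε) := by
  obtain ⟨C, hC, hb⟩ := theta_bound θ h0 h1 hz (ε / 2) (by linarith)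
  filter_upwards [rpow_ev 1 (θ + ε / 2) (θ + ε) (3 * (C * 2 ^ (θ + ε / 2))) one_pos (by linarith),
    eventually_ge_atTop (3:ℝ)] with x hx1 hx2 y hy
  have hx0 : 0 < x := by linarith
  have key := DW_bound x y (C * 2 ^ (θ + ε / 2) * x ^ (θ + ε / 2)) hx2 hy.1 hy.2 (fun t ht => by
    refine (hb t (by linarith [ht.1])).trans ?_
    have : t ^ (θ + ε / 2) ≤ (2 * x) ^ (θ + ε / 2) :=
      Real.rpow_le_rpow (by linarith [ht.1]) (ht.2.trans hy.2) (by linarith)
    rw [Real.mul_rpow (by norm_num) hx0.le] at this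
    nlinarith)
  refine key.trans ?_
  rw [one_mul] at hx1
  linarith

/-- **Local to global principle for primes.** -/
theorem pi_windows (θ : ℝ) (h0 : 1 / 2 ≤ θ) (h1 : θ < 1) :
    (∀ s : ℂ, θ < s.re → riemannZeta s ≠ 0) ↔
    ∀ ε : ℝ, 0 < ε → ∃ η : ℝ, 0 < η ∧ ∃ᶠ x : ℝ in atTop, ∀ y ∈ Icc x ((1 + η) * x), |DW x y| ≤ x ^ (θ + ε) := by
  constructor
  · intro hz ε hε
    refine ⟨1, one_pos, Eventually.frequently ?_⟩
    filter_upwards [DW_of_free θ h0 h1 hz ε hε] with x hx y hy
    exact hx y ⟨hy.1, by linarith [hy.2]⟩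
  · intro h s hs hz
    set ε : ℝ := (s.re - θ) / 3 with hε
    have hε0 : 0 < ε := by rw [hε]; linarith
    obtain ⟨η, hη, hf⟩ := h ε hε0
    obtain ⟨C2, hC2⟩ := Chebyshev.psi_sub_theta_le_mul_sqrt
    obtain ⟨c, hc, hlow⟩ := window_lowerG nice_lam s hz (by linarith) η hη
    set A : ℝ := 1 + η with hA
    have hA1 : 1 < A := by rw [hA]; linarith
    set C5 : ℝ := 2 * A ^ ε / ε + 2 * |C2| * Real.sqrt A + 1 with hC5
    have hC50 : 0 < C5 := by positivity
    have hev := rpow_ev c (1 + θ + 2 * ε) (1 + s.re) (C5 * η) hc (by rw [hε]; linarith)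
    obtain ⟨x, hx1, hx2, hx3, hx4⟩ := (hf.and_eventually (hlow.and (hev.and (eventually_ge_atTop (2:ℝ))))).exists
    have hx0 : 0 < x := by linarith
    have hxy : x ≤ A * x := by nlinarith
    set K : ℝ := Chebyshev.psi x - x with hK
    have hpt : ∀ y ∈ Icc x (A * x), |SS aL y - K| ≤ C5 * x ^ (θ + 2 * ε) := by
      intro y hy
      have hy0 : 0 < y := by linarith [hy.1]
      have b0 := SS_aL_near y K hy0.le
      have b1 := theta_window x y (x ^ (θ + ε)) hx4 hy.1 (fun t ht => hx1 t ⟨ht.1, ht.2.trans hy.2⟩)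
      have b2 : |Chebyshev.psi y - y - K| ≤ |Chebyshev.theta y - y - (Chebyshev.theta x - x)| +
          (Chebyshev.psi y - Chebyshev.theta y) + (Chebyshev.psi x - Chebyshev.theta x) := by
        have e : Chebyshev.psi y - y - K = (Chebyshev.theta y - y - (Chebyshev.theta x - x)) +
            ((Chebyshev.psi y - Chebyshev.theta y) - (Chebyshev.psi x - Chebyshev.theta x)) := by
          rw [hK]; ring
        rw [e]
        refine (abs_add_le _ _).trans ?_
        have h5 := Chebyshev.theta_le_psi y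
        have h6 := Chebyshev.theta_le_psi x
        have : |(Chebyshev.psi y - Chebyshev.theta y) - (Chebyshev.psi x - Chebyshev.theta x)| ≤
            (Chebyshev.psi y - Chebyshev.theta y) + (Chebyshev.psi x - Chebyshev.theta x) := by
          rw [abs_le]
          constructor <;> linarith
        linarith
      have b3 : ∀ z, x ≤ z → z ≤ A * x → Chebyshev.psi z - Chebyshev.theta z ≤ |C2| * Real.sqrt A * x ^ (θ + 2 * ε) := by
        intro z hz1 hz2
        refine (hC2 z).trans ?_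
        have h5 : Real.sqrt z ≤ Real.sqrt A * Real.sqrt x := by
          rw [← Real.sqrt_mul (by linarith)]
          exact Real.sqrt_le_sqrt hz2
        have h6 : Real.sqrt x ≤ x ^ (θ + 2 * ε) := by
          rw [Real.sqrt_eq_rpow]
          exact Real.rpow_le_rpow_of_exponent_le (by linarith) (by linarith)
        calc C2 * Real.sqrt z ≤ |C2| * (Real.sqrt A * x ^ (θ + 2 * ε)) := by
              refine mul_le_mul (le_abs_self _) (h5.trans (mul_le_mul_of_nonneg_left h6 (Real.sqrt_nonneg A)))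
                (Real.sqrt_nonneg _) (abs_nonneg _)
          _ = _ := by ring
      have b4 := b3 y hy.1 hy.2
      have b5 := b3 x le_rfl hxy
      have b6 : 2 * x ^ (θ + ε) * Real.log y ≤ 2 * A ^ ε / ε * x ^ (θ + 2 * ε) := by
        have h5 : Real.log y ≤ (A * x) ^ ε / ε :=
          (Real.log_le_log hy0 hy.2).trans (Real.log_le_rpow_div (by positivity) hε0)
        rw [Real.mul_rpow (by linarith) hx0.le] at h5
        have h6 : x ^ (θ + 2 * ε) = x ^ (θ + ε) * x ^ ε := by
          rw [← Real.rpow_add hx0]; congr 1; ring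
        calc 2 * x ^ (θ + ε) * Real.log y ≤ 2 * x ^ (θ + ε) * (A ^ ε * x ^ ε / ε) := by gcongr
          _ = _ := by rw [h6]; ring
      have b7 : (1:ℝ) ≤ x ^ (θ + 2 * ε) := Real.one_le_rpow (by linarith) (by linarith)
      rw [hC5]
      nlinarith
    have h2 : ∫ y in x..A * x, |SS aL y - K| ≤ C5 * x ^ (θ + 2 * ε) * |A * x - x| := by
      have hb : ∀ y ∈ Set.uIoc x (A * x), ‖|SS aL y - K|‖ ≤ C5 * x ^ (θ + 2 * ε) := by
        intro y hy
        rw [uIoc_of_le hxy] at hy
        rw [Real.norm_eq_abs, abs_abs]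
        exact hpt y ⟨hy.1.le, hy.2⟩
      exact (le_abs_self _).trans (intervalIntegral.norm_integral_le_of_norm_le_const hb)
    have h3 : |A * x - x| = η * x := by
      rw [hA, show (1 + η) * x - x = η * x by ring, abs_of_pos (by positivity)]
    rw [h3] at h2
    have h4 := hx2 K
    have h5 : x ^ (1 + θ + 2 * ε) = x ^ (θ + 2 * ε) * x := by
      nth_rewrite 3 [← Real.rpow_one x]
      rw [← Real.rpow_add hx0]
      congr 1
      ring
    rw [h5] at hx3
    nlinarith

theorem RH_iff_free : RiemannHypothesis ↔ ∀ s : ℂ, 1 / 2 < s.re → riemannZeta s ≠ 0 := by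
  constructor
  · intro h s hs hz
    have := h s hz (by
      rintro ⟨n, hn⟩
      have h5 := congrArg Complex.re hn
      simp at h5
      have : (0:ℝ) ≤ n := Nat.cast_nonneg n
      linarith) (by
      rintro rfl
      exact riemannZeta_one_ne_zero hz)
    linarith
  · intro h
    exact RH_of fun s hs _ => h s hs

end

end H313.PW
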