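import Pool.Agent.H313R3.LW.F
import Pool.Agent.H353R2.An

/-!
# The logarithmic derivative in a zero-free half plane
-/

open Complex MeasureTheory ProbabilityTheory Filter Topology Set Metric
open scoped ContDiff

set_option linter.unusedSectionVars false
set_option autoImplicit false

namespace H313.PW

open H353 H313.LW

noncomputable section

/-- bound of the logarithmic derivative from an upper bound of a nonvanishing function -/
theorem ld_bound (Q : ℂ → ℂ) (c : ℂ) (R M r r1 : ℝ) (hr : 0 ≤ r) (hrr : r < r1) (hrR : r1 < R)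
    (hQ : DifferentiableOn ℂ Q (ball c R)) (hQ0 : ∀ v ∈ ball c R, Q v ≠ 0)
    (hM : ∀ v ∈ ball c R, ‖Q v‖ ≤ M) (hMQ : 1 < M / ‖Q c‖) (v : ℂ) (hv : v ∈ closedBall c r) :
    ‖deriv Q v / Q v‖ ≤ 2 * Real.log (M / ‖Q c‖) * r1 / (R - r1) / (r1 - r) := by
  have hR : 0 < R := by linarith
  have hc : c ∈ ball c R := mem_ball_self hR
  have hQc := hQ0 c hc
  have hQcp : 0 < ‖Q c‖ := norm_pos_iff.2 hQc
  have hMp : 0 < M := hQcp.trans_le (hM c hc)
  have hlog0 : 0 < Real.log (M / ‖Q c‖) := Real.log_pos hMQ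
  have hld : DifferentiableOn ℂ (fun v => deriv Q v / Q v) (ball c R) :=
    (hQ.deriv isOpen_ball).div hQ hQ0
  obtain ⟨f, hfc, hf⟩ := (hld.isExactOn_ball).with_val_at c 0
  have hconst : ∀ v ∈ ball c R, Q v * cexp (-f v) = Q c := by
    intro v hv
    have hd : ∀ z ∈ ball c R, HasDerivAt (fun z => Q z * cexp (-f z)) 0 z := by
      intro z hz
      have h1 := ((hQ z hz).differentiableAt (isOpen_ball.mem_nhds hz)).hasDerivAt
      have h2 := (hf z hz).neg.cexp
      have h3 : HasDerivAt (fun z => Q z * cexp (-f z))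
        (deriv Q z * cexp (-f z) + Q z * (cexp (-f z) * -(deriv Q z / Q z))) z := h1.mul h2
      have := hQ0 z hz
      have e : deriv Q z * cexp (-f z) + Q z * (cexp (-f z) * -(deriv Q z / Q z)) = 0 := by
        field_simp
        ring
      rwa [e] at h3
    have := (convex_ball c R).is_const_of_fderivWithin_eq_zero (𝕜 := ℂ)
      (f := fun z => Q z * cexp (-f z)) (fun z hz => (hd z hz).differentiableAt.differentiableWithinAt)
      (fun z hz => by
        rw [fderivWithin_of_isOpen isOpen_ball hz]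
        ext
        simp [(hd z hz).hasFDerivAt.fderiv]) hv hc
    rw [this, hfc]
    simp
  have hQexp : ∀ v ∈ ball c R, Q v = Q c * cexp (f v) := by
    intro v hv
    rw [← hconst v hv, mul_assoc, ← Complex.exp_add]
    simp
  have hre : ∀ v ∈ ball c R, (f v).re ≤ Real.log (M / ‖Q c‖) := by
    intro v hv
    have h1 := hM v hv
    rw [hQexp v hv, norm_mul, Complex.norm_exp] at h1
    rw [Real.le_log_iff_exp_le (by positivity), le_div_iff₀ hQcp]
    linarith
  have hfb : ∀ w : ℂ, ‖w - c‖ ≤ r1 → ‖f w‖ ≤ 2 * Real.log (M / ‖Q c‖) * r1 / (R - r1) := by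
    intro w hw
    set g : ℂ → ℂ := fun z => f (c + z) with hg
    have hgd : DifferentiableOn ℂ g (ball 0 R) := by
      intro z hz
      have hz' : c + z ∈ ball c R := by simpa [mem_ball, dist_eq_norm] using hz
      have h1 := (hf (c + z) hz').differentiableAt
      exact (h1.comp z (by fun_prop : DifferentiableAt ℂ (fun z => c + z) z)).differentiableWithinAt
    have hmaps : Set.MapsTo g (ball 0 R) {z | z.re ≤ Real.log (M / ‖Q c‖)} := by
      intro z hz
      have hz' : c + z ∈ ball c R := by simpa [mem_ball, dist_eq_norm] using hz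
      exact hre _ hz'
    have hz : w - c ∈ ball (0:ℂ) R := by
      rw [mem_ball_zero_iff]
      linarith
    have hbc := Complex.borelCaratheodory_zero (M := Real.log (M / ‖Q c‖)) hlog0 hgd
      hmaps hR hz (by simp [hg, hfc])
    have e : g (w - c) = f w := by simp [hg]
    rw [e] at hbc
    refine hbc.trans ?_
    have : 0 < R - r1 := by linarith
    have hr1' : 0 ≤ r1 := by linarith
    have h7 : 0 ≤ 2 * Real.log (M / ‖Q c‖) * r1 := by positivity
    gcongr
  have hvn : ‖v - c‖ ≤ r := by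
    rwa [mem_closedBall, dist_eq_norm] at hv
  have hvb : v ∈ ball c R := by
    rw [mem_ball, dist_eq_norm]
    linarith
  have hd := (hf v hvb).deriv
  rw [← hd]
  have hr2 : 0 < r1 - r := by linarith
  refine Complex.norm_deriv_le_of_forall_mem_sphere_norm_le hr2 ?_ ?_
  · refine DifferentiableOn.diffContOnCl ?_
    intro w hw
    have hw' : w ∈ closedBall v (r1 - r) := by
      rwa [closure_ball v hr2.ne'] at hw
    rw [mem_closedBall, dist_eq_norm] at hw'
    have hwb : w ∈ ball c R := by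
      rw [mem_ball, dist_eq_norm]
      have : ‖w - c‖ ≤ ‖w - v‖ + ‖v - c‖ := norm_sub_le_norm_sub_add_norm_sub w v c
      linarith
    exact (hf w hwb).differentiableAt.differentiableWithinAt
  · intro w hw
    rw [mem_sphere, dist_eq_norm] at hw
    refine hfb w ?_
    have : ‖w - c‖ ≤ ‖w - v‖ + ‖v - c‖ := norm_sub_le_norm_sub_add_norm_sub w v c
    linarith

/-- the logarithmic derivative in a zero-free half plane -/
theorem FF_ld (θ σ δ : ℝ) (h0 : 1 / 2 ≤ θ) (hσ : θ < σ) (hδ : 0 < δ)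
    (hz : ∀ s : ℂ, θ < s.re → FF s ≠ 0) :
    ∃ D : ℝ, 0 < D ∧ ∀ s : ℂ, σ ≤ s.re → s.re ≤ 2 → ‖deriv FF s / FF s‖ ≤ D * (1 + |s.im|) ^ δ := by
  by_cases hσ2 : σ ≤ 2
  swap
  · exact ⟨1, one_pos, fun s h1 h2 => absurd (h1.trans h2) hσ2⟩
  set R : ℝ := 2 - θ with hR
  set r1 : ℝ := 2 - (θ + σ) / 2 with hr1
  set r : ℝ := 2 - σ with hr
  have hrr : r < r1 := by rw [hr, hr1]; linarith
  have hrR : r1 < R := by rw [hr1, hR]; linarith
  have hr0 : 0 ≤ r := by rw [hr]; linarith
  have hr10 : 0 < r1 := by linarith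
  set A : ℝ := 2 * r1 / (R - r1) / (r1 - r) with hA
  have hA0 : 0 < A := by
    have : 0 < R - r1 := by linarith
    have : 0 < r1 - r := by linarith
    positivity
  have hc2 : 0 ≤ Real.log 150 + 2 / δ := by
    have : 0 ≤ Real.log 150 := Real.log_nonneg (by norm_num)
    positivity
  refine ⟨A * (Real.log 150 + 2 / δ + 1), by positivity, fun s hs1 hs2 => ?_⟩
  set c : ℂ := 2 + s.im * I with hc
  have hcre : c.re = 2 := by simp [hc]
  have hcim : c.im = s.im := by simp [hc]
  have habs := abs_nonneg s.im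
  have hFc : 1 / 2 ≤ ‖FF c‖ := FF_lower c (by rw [hcre])
  have hFc0 : 0 < ‖FF c‖ := by linarith
  set M : ℝ := 3 * (5 + |s.im|) ^ 2 with hM
  have hcn : ‖c‖ ≤ 2 + |s.im| := by
    have := Complex.norm_le_abs_re_add_abs_im c
    rw [hcre, hcim] at this
    simpa using this
  have hMb : ∀ v ∈ ball c R, ‖FF v‖ ≤ M := by
    intro v hv
    rw [mem_ball, dist_eq_norm] at hv
    have h1 := (abs_le.1 ((Complex.abs_re_le_norm (v - c)).trans hv.le)).1
    rw [Complex.sub_re, hcre] at h1
    have h2 : θ ≤ v.re := by rw [hR] at h1; linarith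
    have b := FF_bound (1 / 2) (by norm_num) v (by linarith)
    have hvn : ‖v‖ ≤ 4 + |s.im| := by
      have : ‖v‖ ≤ ‖v - c‖ + ‖c‖ := by
        simpa using norm_add_le (v - c) c
      rw [hR] at hv
      linarith
    refine b.trans ?_
    have h3 : (1 + ‖v‖) ^ 2 ≤ (5 + |s.im|) ^ 2 := pow_le_pow_left₀ (by positivity) (by linarith) 2
    rw [hM]
    norm_num
    linarith
  have hMc : 1 < M / ‖FF c‖ := by
    have h1 := FF_bound (1 / 2) (by norm_num) c (by rw [hcre]; norm_num)
    rw [one_lt_div hFc0]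
    have h3 : (1 + ‖c‖) ^ 2 ≤ (3 + |s.im|) ^ 2 := pow_le_pow_left₀ (by positivity) (by linarith) 2
    norm_num at h1
    rw [hM]
    nlinarith
  have hQ0 : ∀ v ∈ ball c R, FF v ≠ 0 := by
    intro v hv
    rw [mem_ball, dist_eq_norm] at hv
    have h1 := (abs_lt.1 ((Complex.abs_re_le_norm (v - c)).trans_lt hv)).1
    rw [Complex.sub_re, hcre] at h1
    exact hz v (by rw [hR] at h1; linarith)
  have hsb : s ∈ closedBall c r := by
    rw [mem_closedBall, dist_eq_norm]
    have e : s - c = ((s.re - 2 : ℝ) : ℂ) := by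
      rw [hc]
      apply Complex.ext <;> simp
    rw [e, Complex.norm_real, Real.norm_eq_abs, abs_of_nonpos (by linarith)]
    linarith
  have key := ld_bound FF c R M r r1 hr0 hrr hrR (ZU.J_g2b.FF_diff.differentiableOn) hQ0 hMb hMc s hsb
  refine key.trans ?_
  have hlogM : Real.log (M / ‖FF c‖) ≤ Real.log 150 + 2 / δ * (1 + |s.im|) ^ δ := by
    have hMp : 0 < M := by positivity
    have h1 : M / ‖FF c‖ ≤ 150 * (1 + |s.im|) ^ 2 := by
      rw [div_le_iff₀ hFc0]
      have h4 : M ≤ 75 * (1 + |s.im|) ^ 2 := by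
        rw [hM]
        nlinarith
      nlinarith [sq_nonneg (1 + |s.im|)]
    have h2 := Real.log_le_log (by positivity) h1
    rw [Real.log_mul (by norm_num) (by positivity), Real.log_pow] at h2
    have h3 := Real.log_le_rpow_div (x := 1 + |s.im|) (by positivity) hδ
    push_cast at h2
    calc Real.log (M / ‖FF c‖) ≤ Real.log 150 + 2 * Real.log (1 + |s.im|) := h2
      _ ≤ Real.log 150 + 2 * ((1 + |s.im|) ^ δ / δ) := by linarith
      _ = _ := by ring
  have hge : (1:ℝ) ≤ (1 + |s.im|) ^ δ := Real.one_le_rpow (by linarith) hδ.le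
  have e1 : 2 * Real.log (M / ‖FF c‖) * r1 / (R - r1) / (r1 - r) = A * Real.log (M / ‖FF c‖) := by
    rw [hA]; ring
  rw [e1, mul_assoc]
  refine mul_le_mul_of_nonneg_left ?_ hA0.le
  have h150 : 0 ≤ Real.log 150 := Real.log_nonneg (by norm_num)
  have h2δ : 0 < 2 / δ := by positivity
  nlinarith

end

end H313.PW
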