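import Pool.Agent.H313R3.PW.A
import Pool.Agent.H295R2.M

/-!
# The prime number theorem with the error term of a zero-free half plane
-/

open Complex MeasureTheory ProbabilityTheory Filter Topology Set Metric
open ArithmeticFunction (vonMangoldt)
open scoped ContDiff

set_option linter.unusedSectionVars false
set_option autoImplicit false

namespace H313.PW

open H353 H313.LW

noncomputable section

/-- von Mangoldt function as a real sequence -/
def aV (n : ℕ) : ℝ := vonMangoldt n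

theorem aV_zero : aV 0 = 0 := by simp [aV]

theorem aV_nonneg (n : ℕ) : 0 ≤ aV n := ArithmeticFunction.vonMangoldt_nonneg

theorem aV_summable : Summable (fun n : ℕ => |aV n| / (n : ℝ) ^ 2) := by
  have h1 : LSeriesSummable (fun n => ((vonMangoldt n : ℝ) : ℂ)) 2 :=
    ArithmeticFunction.LSeriesSummable_vonMangoldt (by norm_num)
  refine h1.norm.congr fun n => ?_
  rw [LSeries.norm_term_eq]
  by_cases hn : n = 0
  · simp [hn, aV]
  · rw [if_neg hn, Complex.norm_real, Real.norm_eq_abs]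
    have e : (n : ℝ) ^ (2:ℂ).re = (n:ℝ) ^ 2 := by
      simp
    rw [e]
    rfl

/-- `- FF'/FF` -/
def PL (s : ℂ) : ℂ := -(deriv FF s / FF s)

theorem aV_series (s : ℂ) (hs : 1 < s.re) : LSeries (fun n => (aV n : ℂ)) s = PL s + 1 / (s - 1) := by
  have e1 := ArithmeticFunction.LSeries_vonMangoldt_eq_deriv_riemannZeta_div hs
  have e2 : LSeries (fun n => (aV n : ℂ)) s = LSeries (fun n => ((vonMangoldt n : ℝ) : ℂ)) s := rfl
  rw [e2, e1]
  have hne1 : s ≠ 1 := by
    rintro rfl
    simp at hs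
  have hs1 : s - 1 ≠ 0 := sub_ne_zero.2 hne1
  have hz : riemannZeta s ≠ 0 := riemannZeta_ne_zero_of_one_lt_re hs
  have hder : deriv FF s = riemannZeta s + (s - 1) * deriv riemannZeta s := by
    have e3 : FF =ᶠ[𝓝 s] fun z => (z - 1) * riemannZeta z := by
      filter_upwards [isOpen_ne.mem_nhds hne1] with z hz using ZU.J_g2b.FF_ne hz
    rw [e3.deriv_eq]
    have h4 : HasDerivAt (fun z : ℂ => z - 1) 1 s := (hasDerivAt_id s).sub_const 1
    have h5 : HasDerivAt riemannZeta (deriv riemannZeta s) s := (differentiableAt_riemannZeta hne1).hasDerivAt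
    have h6 := (h4.fun_mul h5).deriv
    rw [h6]
    ring
  unfold PL
  rw [hder, show FF s = (s - 1) * riemannZeta s from ZU.J_g2b.FF_ne hne1]
  field_simp
  ring

/-- the pole term -/
theorem pole_term {L : ℝ} {f : ℝ → ℝ} (hf : ST L f) (t : ℝ) :
    ∫ ξ : ℝ, GF f (ln 2 ξ) * cexp (ln 2 ξ * t) * (1 / (ln 2 ξ - 1)) =
      ((∫ v in Ioi (0:ℝ), Real.exp v * f (t - v) : ℝ) : ℂ) := by
  have hG := GF_int hf 2 (by norm_num)
  have hGc := GF_line_cont hf 2 (by norm_num)
  have hlc := ln_cont 2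
  have e1 : ∀ ξ : ℝ, (1 / (ln 2 ξ - 1)) = ∫ v in Ioi (0:ℝ), cexp (-(ln 2 ξ - 1) * v) := by
    intro ξ
    rw [integral_exp_mul_complex_Ioi (by
      rw [Complex.neg_re, Complex.sub_re, ln_re]
      norm_num)]
    simp only [Complex.ofReal_zero, mul_zero, Complex.exp_zero]
    rw [neg_div_neg_eq]
  have e2 : ∀ ξ : ℝ, GF f (ln 2 ξ) * cexp (ln 2 ξ * t) * (1 / (ln 2 ξ - 1)) =
      ∫ v in Ioi (0:ℝ), GF f (ln 2 ξ) * cexp (ln 2 ξ * t) * cexp (-(ln 2 ξ - 1) * v) := by
    intro ξ
    rw [e1, integral_const_mul]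
  simp_rw [e2]
  rw [integral_integral_swap]
  · rw [← integral_complex_ofReal]
    refine integral_congr_ae (ae_of_all _ fun v => ?_)
    simp only
    have e3 : ∀ ξ : ℝ, GF f (ln 2 ξ) * cexp (ln 2 ξ * t) * cexp (-(ln 2 ξ - 1) * v) =
        cexp v * (GF f (ln 2 ξ) * cexp (ln 2 ξ * ((t - v : ℝ) : ℂ))) := by
      intro ξ
      rw [mul_assoc, ← Complex.exp_add, mul_left_comm, ← Complex.exp_add]
      congr 2
      push_cast
      ring
    simp_rw [e3]
    rw [integral_const_mul, hf.inv]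
    push_cast
    rfl
  · have hdom : Integrable (fun p : ℝ × ℝ => (‖GF f (ln 2 p.1)‖ * Real.exp (2 * t)) * Real.exp (-1 * p.2))
        (volume.prod (volume.restrict (Ioi (0:ℝ)))) := by
      have h1 : Integrable (fun ξ : ℝ => ‖GF f (ln 2 ξ)‖ * Real.exp (2 * t)) := hG.norm.mul_const _
      have h2 : Integrable (fun v : ℝ => Real.exp (-1 * v)) (volume.restrict (Ioi (0:ℝ))) :=
        integrableOn_exp_mul_Ioi (by norm_num) 0
      exact h1.mul_prod h2
    refine hdom.mono' ?_ (ae_of_all _ fun p => ?_)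
    · refine Measurable.aestronglyMeasurable ?_
      have m1 : Measurable (fun p : ℝ × ℝ => GF f (ln 2 p.1)) := hGc.measurable.comp measurable_fst
      have m2 : Measurable (fun p : ℝ × ℝ => ln 2 p.1) := (ln_cont 2).measurable.comp measurable_fst
      show Measurable (fun p : ℝ × ℝ => GF f (ln 2 p.1) * cexp (ln 2 p.1 * t) * cexp (-(ln 2 p.1 - 1) * (p.2 : ℂ)))
      fun_prop
    · show ‖GF f (ln 2 p.1) * cexp (ln 2 p.1 * t) * cexp (-(ln 2 p.1 - 1) * (p.2 : ℂ))‖ ≤ _
      rw [norm_mul, norm_mul, Complex.norm_exp, Complex.norm_exp, Complex.re_mul_ofReal, ln_re,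
        Complex.re_mul_ofReal, Complex.neg_re, Complex.sub_re, ln_re]
      norm_num

/-- the explicit formula for smoothed sums over primes -/
theorem psi_formula {L : ℝ} {f : ℝ → ℝ} (hf : ST L f) (t : ℝ) :
    ((SG aV f t - ∫ v in Ioi (0:ℝ), Real.exp v * f (t - v) : ℝ) : ℂ) =
      ∫ ξ : ℝ, GF f (ln 2 ξ) * PL (ln 2 ξ) * cexp (ln 2 ξ * t) := by
  have e1 : ∀ t, Av (fun _ : Fin 0 => (0:ℝ)) (fun _ : Fin 0 => (0:ℝ)) f t = f t := by
    intro t
    unfold Av XX
    simp
  have hs : Summable (fun _ : Fin 0 => (0:ℝ)) := Summable.of_finite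
  have hK1 : ∀ s, KK (fun _ : Fin 0 => (0:ℝ)) (fun _ : Fin 0 => (0:ℝ)) s = 1 := by
    intro s
    unfold KK XX
    simp
  have h := gen_formulaF (fun _ : Fin 0 => (0:ℝ)) (fun _ : Fin 0 => (0:ℝ)) (fun i => i.elim0) hs hf t aV
    aV_zero aV_summable
  simp_rw [e1, hK1, mul_one] at h
  have hG := GF_int hf 2 (by norm_num)
  have hGc := GF_line_cont hf 2 (by norm_num)
  have hlc := ln_cont 2
  have hne : ∀ ξ, ln 2 ξ - 1 ≠ 0 := by
    intro ξ h0
    have := congrArg Complex.re h0
    rw [Complex.sub_re, ln_re] at this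
    norm_num at this
  -- the pole part is integrable
  have hI2 : Integrable (fun ξ : ℝ => GF f (ln 2 ξ) * cexp (ln 2 ξ * t) * (1 / (ln 2 ξ - 1))) := by
    refine (hG.norm.mul_const (Real.exp (2 * t))).mono' ?_ (ae_of_all _ fun ξ => ?_)
    · refine Continuous.aestronglyMeasurable ?_
      refine (by fun_prop : Continuous fun ξ : ℝ => GF f (ln 2 ξ) * cexp (ln 2 ξ * t)).mul ?_
      exact continuous_const.div (by fun_prop) hne
    · rw [norm_mul, norm_mul, Complex.norm_exp, Complex.re_mul_ofReal, ln_re]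
      have h1 : ‖1 / (ln 2 ξ - 1)‖ ≤ 1 := by
        rw [norm_div, norm_one]
        rw [div_le_one (norm_pos_iff.2 (hne ξ))]
        have := (le_abs_self _).trans (Complex.abs_re_le_norm (ln 2 ξ - 1))
        rw [Complex.sub_re, ln_re] at this
        norm_num at this
        exact this
      exact mul_le_of_le_one_right (by positivity) h1
  have hI1 : Integrable (fun ξ : ℝ => GF f (ln 2 ξ) * cexp (ln 2 ξ * t) * LSeries (fun n => (aV n : ℂ)) (ln 2 ξ)) := by
    set B : ℝ := ∑' n : ℕ, |aV n| / (n : ℝ) ^ 2 with hB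
    have hLc : Continuous (fun ξ : ℝ => LSeries (fun n => (aV n : ℂ)) (ln 2 ξ)) := by
      rw [continuous_iff_continuousAt]
      intro ξ
      have h2 : AnalyticAt ℂ (LSeries (fun n => (aV n : ℂ))) (ln 2 ξ) := by
        refine LSeries_analyticOnNhd _ _ ?_
        show _ < ((ln 2 ξ).re : EReal)
        rw [ln_re]
        have h3 : LSeries.abscissaOfAbsConv (fun n => (aV n : ℂ)) ≤ ((3/2 : ℝ) : EReal) := by
          refine LSeries.abscissaOfAbsConv_le_of_forall_lt_LSeriesSummable fun y hy => ?_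
          exact ArithmeticFunction.LSeriesSummable_vonMangoldt (by
            rw [Complex.ofReal_re]; linarith)
        refine lt_of_le_of_lt h3 ?_
        exact_mod_cast (by norm_num : (3/2:ℝ) < 2)
      exact ContinuousAt.comp (f := ln 2) (g := LSeries (fun n => (aV n : ℂ))) h2.continuousAt (ln_cont 2).continuousAt
    refine ((hG.norm.mul_const (Real.exp (2 * t))).mul_const B).mono' ?_ (ae_of_all _ fun ξ => ?_)
    · exact ((by fun_prop : Continuous fun ξ : ℝ => GF f (ln 2 ξ) * cexp (ln 2 ξ * t)).mul hLc).aestronglyMeasurable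
    · rw [norm_mul, norm_mul, Complex.norm_exp, Complex.re_mul_ofReal, ln_re]
      refine mul_le_mul_of_nonneg_left ?_ (by positivity)
      unfold LSeries
      refine tsum_of_norm_bounded aV_summable.hasSum fun n => ?_
      rw [LSeries.norm_term_eq, ln_re]
      by_cases hn : n = 0
      · simp [hn, aV]
      · rw [if_neg hn, Complex.norm_real, Real.norm_eq_abs]
        refine le_of_eq ?_
        congr 1
        exact_mod_cast Real.rpow_natCast (n : ℝ) 2
  have e3 : ∀ ξ : ℝ, GF f (ln 2 ξ) * PL (ln 2 ξ) * cexp (ln 2 ξ * t) =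
      GF f (ln 2 ξ) * cexp (ln 2 ξ * t) * LSeries (fun n => (aV n : ℂ)) (ln 2 ξ) -
      GF f (ln 2 ξ) * cexp (ln 2 ξ * t) * (1 / (ln 2 ξ - 1)) := by
    intro ξ
    rw [aV_series _ (by rw [ln_re]; norm_num)]
    ring
  simp_rw [e3]
  rw [integral_sub hI1 hI2, ← h, pole_term hf t, Complex.ofReal_sub]
  rfl

end

end H313.PW
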