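import Pool.Agent.H313R3.PW.B

/-!
# The error term
-/

open Complex MeasureTheory ProbabilityTheory Filter Topology Set Metric
open ArithmeticFunction (vonMangoldt)
open scoped ContDiff

set_option linter.unusedSectionVars false
set_option autoImplicit false

namespace H313.PW

open H353 H313.LW

noncomputable section

theorem Ph_scale (η : ℝ) (s : ℂ) (hη : 0 < η) : DD (deriv (Ph η)) s = DD (deriv (Ph 1)) (η * s) := by
  have e1 : ∀ t, deriv (Ph η) t = η⁻¹ * deriv (Ph 1) (t / η) := by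
    intro t
    have h1 : HasDerivAt (Ph 1) (deriv (Ph 1) (t / η)) (t / η) :=
      ((contDiff_infty_iff_deriv.1 (Ph_smooth 1)).1 _).hasDerivAt
    have h2 : HasDerivAt (fun t : ℝ => t / η) (1 / η) t := (hasDerivAt_id t).div_const η
    have h3 := h1.comp t h2
    have e : (Ph 1 ∘ fun t : ℝ => t / η) = Ph η := by
      funext t
      simp [Ph]
    rw [e] at h3
    rw [h3.deriv]
    ring
  unfold DD
  have e2 : ∀ t : ℝ, ((deriv (Ph η) t : ℝ) : ℂ) * cexp (-s * t) =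
      ((η⁻¹ : ℝ) : ℂ) * (fun v : ℝ => ((deriv (Ph 1) v : ℝ) : ℂ) * cexp (-(η * s) * v)) (t / η) := by
    intro t
    rw [e1]
    have hη' : (η : ℂ) ≠ 0 := by exact_mod_cast hη.ne'
    have e3 : -(η * s) * ((t / η : ℝ) : ℂ) = -s * t := by
      push_cast
      field_simp
    simp only [e3]
    push_cast
    ring
  simp_rw [e2]
  rw [integral_const_mul, Measure.integral_comp_div (fun v : ℝ => ((deriv (Ph 1) v : ℝ) : ℂ) * cexp (-(η * s) * v)) η,
    abs_of_pos hη, Complex.real_smul, ← mul_assoc]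
  have : ((η⁻¹ : ℝ) : ℂ) * (η : ℂ) = 1 := by
    rw [← Complex.ofReal_mul, inv_mul_cancel₀ hη.ne', Complex.ofReal_one]
  rw [this, one_mul]

theorem Ph_small : ∃ C : ℝ, 0 < C ∧ ∀ η a : ℝ, ∀ s : ℂ, 0 < η → 0 ≤ a → a ≤ 1 → 0 < s.re →
    ‖DD (deriv (Ph η)) s‖ ≤ C * (η * ‖s‖) ^ (-a) := by
  obtain ⟨C0, hC0, h0⟩ := TF.decay 0 (Ph_TF 1 one_pos)
  obtain ⟨C1, hC1, h1⟩ := TF.decay 1 (Ph_TF 1 one_pos)
  refine ⟨C0 + C1, by positivity, fun η a s hη ha0 ha1 hs => ?_⟩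
  rw [Ph_scale η s hη]
  have hre : 0 ≤ ((η : ℂ) * s).re := by
    rw [Complex.re_ofReal_mul]
    positivity
  have hn : ‖(η : ℂ) * s‖ = η * ‖s‖ := by
    rw [norm_mul, Complex.norm_real, Real.norm_eq_abs, abs_of_pos hη]
  have hs0 : s ≠ 0 := by
    rintro rfl
    simp at hs
  have hx : 0 < η * ‖s‖ := mul_pos hη (norm_pos_iff.2 hs0)
  have b0 := h0 _ hre
  have b1 := h1 _ hre
  rw [pow_zero, one_mul] at b0
  rw [pow_one, hn] at b1
  set x := η * ‖s‖ with hxd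
  have hxa : 0 < x ^ (-a) := Real.rpow_pos_of_pos hx _
  rcases le_total x 1 with h | h
  · have h2 : 1 ≤ x ^ (-a) := Real.one_le_rpow_of_pos_of_le_one_of_nonpos hx h (by linarith)
    nlinarith
  · have h2 : x ^ (-(1:ℝ)) ≤ x ^ (-a) := Real.rpow_le_rpow_of_exponent_le h (by linarith)
    rw [Real.rpow_neg hx.le, Real.rpow_one] at h2
    have h3 : ‖DD (deriv (Ph 1)) (↑η * s)‖ ≤ C1 * x⁻¹ := by
      rw [← div_eq_mul_inv, le_div_iff₀ hx]
      linarith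
    nlinarith

/-- the shifted integral with explicit dependence on the smoothing -/
theorem PL_shift (θ σ δ : ℝ) (h0 : 1 / 2 ≤ θ) (hσ : θ < σ) (hσ2 : σ ≤ 1) (hδ : 0 < δ) (hδ1 : 2 * δ ≤ 1)
    (hz : ∀ s : ℂ, θ < s.re → FF s ≠ 0) :
    ∃ C : ℝ, 0 < C ∧ ∀ η t : ℝ, 0 < η →
      ‖∫ ξ : ℝ, GF (Ph η) (ln 2 ξ) * PL (ln 2 ξ) * cexp (ln 2 ξ * t)‖ ≤
        C * η ^ (-(2 * δ)) * Real.exp (σ * t) := by
  obtain ⟨D, hD, hDb⟩ := FF_ld θ σ δ h0 hσ hδ hz
  obtain ⟨C1, hC1, hC1b⟩ := Ph_small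
  set I0 : ℝ := ∫ ξ : ℝ, (1 + |2 * Real.pi * ξ|) ^ (-(1 + δ)) with hI0
  have hI0' : 0 ≤ I0 := integral_nonneg fun ξ => by positivity
  refine ⟨16 * C1 * D * I0 + 1, by positivity, fun η t hη => ?_⟩
  have hPh := Ph_ST η hη
  obtain ⟨C3, hC3, hG3⟩ := GF_decay hPh 2
  set f : ℂ → ℂ := fun s => GF (Ph η) s * PL s * cexp (s * t) with hf
  have hfd : ∀ s : ℂ, σ ≤ s.re → s.re ≤ 2 → DifferentiableAt ℂ f s := by
    intro s hs1 hs2
    have hs0 : s ≠ 0 := by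
      rintro rfl
      simp at hs1
      linarith
    have d1 := GF_diffAt hPh s hs0
    have d2 : DifferentiableAt ℂ PL s := by
      have hFFd : Differentiable ℂ FF := ZU.J_g2b.FF_diff
      have h1 : DifferentiableAt ℂ (deriv FF) s := (hFFd.analyticAt s).deriv.differentiableAt
      exact (h1.div (hFFd s) (hz s (by linarith))).neg
    rw [hf]
    fun_prop
  have hshift := shift_ln σ 2 (by linarith) f hfd (32 * C3 * D * Real.exp (2 * |t|)) (by
    intro s hs1 hs2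
    have hn : 1 / 2 ≤ ‖s‖ := by
      have := (le_abs_self s.re).trans (Complex.abs_re_le_norm s)
      linarith
    have hn0 : 0 < ‖s‖ := by linarith
    have him := Complex.abs_im_le_norm s
    have e1 : ‖f s‖ = ‖GF (Ph η) s‖ * ‖PL s‖ * Real.exp (s.re * t) := by
      rw [hf]
      simp only [norm_mul]
      rw [Complex.norm_exp, Complex.re_mul_ofReal]
    have e2 : ‖PL s‖ ≤ D * (1 + |s.im|) ^ δ := by
      unfold PL
      rw [norm_neg]
      exact hDb s hs1 hs2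
    have e2' : (1 + |s.im|) ^ δ ≤ 1 + |s.im| := by
      calc (1 + |s.im|) ^ δ ≤ (1 + |s.im|) ^ (1:ℝ) :=
            Real.rpow_le_rpow_of_exponent_le (by linarith [abs_nonneg s.im]) (by linarith)
        _ = _ := Real.rpow_one _
    have e3 := hG3 s (by linarith)
    have e4 : s.re * t ≤ 2 * |t| := by
      have h6 : s.re * t ≤ s.re * |t| := mul_le_mul_of_nonneg_left (le_abs_self t) (by linarith)
      have h7 : s.re * |t| ≤ 2 * |t| := mul_le_mul_of_nonneg_right hs2 (abs_nonneg t)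
      linarith
    have e5 : (1 + |s.im|) * (1 + s.im ^ 2) ≤ 32 * ‖s‖ ^ 3 := by
      have h8 : 1 + |s.im| ≤ 4 * ‖s‖ := by linarith
      have h9 : s.im ^ 2 ≤ ‖s‖ ^ 2 := by
        rw [← sq_abs s.im]
        exact pow_le_pow_left₀ (abs_nonneg _) him 2
      have h10 : 1 + s.im ^ 2 ≤ 8 * ‖s‖ ^ 2 := by nlinarith
      calc (1 + |s.im|) * (1 + s.im ^ 2) ≤ (4 * ‖s‖) * (8 * ‖s‖ ^ 2) := by gcongr
        _ = _ := by ring
    have hpos : 0 < 1 + s.im ^ 2 := by positivity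
    rw [e1, ← div_eq_mul_inv, le_div_iff₀ hpos]
    have hGn := norm_nonneg (GF (Ph η) s)
    calc ‖GF (Ph η) s‖ * ‖PL s‖ * Real.exp (s.re * t) * (1 + s.im ^ 2)
        ≤ ‖GF (Ph η) s‖ * (D * (1 + |s.im|)) * Real.exp (2 * |t|) * (1 + s.im ^ 2) := by
          gcongr
          exact e2.trans (mul_le_mul_of_nonneg_left e2' hD.le)
      _ = D * Real.exp (2 * |t|) * ‖GF (Ph η) s‖ * ((1 + |s.im|) * (1 + s.im ^ 2)) := by ring
      _ ≤ D * Real.exp (2 * |t|) * ‖GF (Ph η) s‖ * (32 * ‖s‖ ^ 3) := by gcongr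
      _ = 32 * D * Real.exp (2 * |t|) * (‖s‖ ^ 3 * ‖GF (Ph η) s‖) := by ring
      _ ≤ 32 * D * Real.exp (2 * |t|) * C3 := by gcongr
      _ = _ := by ring)
  show ‖∫ ξ : ℝ, f (ln 2 ξ)‖ ≤ _
  rw [← hshift]
  have hI := Pool.Agent.H295R2.integrable_decay' (a := 1 + δ) (by linarith)
  have hη2 : 0 < η ^ (-(2 * δ)) := Real.rpow_pos_of_pos hη _
  have hbound : ∀ ξ : ℝ, ‖f (ln σ ξ)‖ ≤ (16 * C1 * D * η ^ (-(2 * δ)) * Real.exp (σ * t)) *
      (1 + |2 * Real.pi * ξ|) ^ (-(1 + δ)) := by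
    intro ξ
    have hre : (ln σ ξ).re = σ := ln_re σ ξ
    have him : (ln σ ξ).im = 2 * Real.pi * ξ := ln_im σ ξ
    rw [← him]
    generalize ln σ ξ = s at hre him ⊢
    have hn : 1 / 2 ≤ ‖s‖ := by
      have := (le_abs_self s.re).trans (Complex.abs_re_le_norm s)
      linarith
    have hn0 : 0 < ‖s‖ := by linarith
    have himn := Complex.abs_im_le_norm s
    have hT : 0 < 1 + |s.im| := by positivity
    have e1 : ‖f s‖ = ‖GF (Ph η) s‖ * ‖PL s‖ * Real.exp (σ * t) := by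
      rw [hf]
      simp only [norm_mul]
      rw [Complex.norm_exp, Complex.re_mul_ofReal, hre]
    have e2 : ‖PL s‖ ≤ D * (1 + |s.im|) ^ δ := by
      unfold PL
      rw [norm_neg]
      exact hDb s hre.ge (by linarith)
    have e3 : ‖GF (Ph η) s‖ ≤ C1 * η ^ (-(2 * δ)) * ‖s‖ ^ (-(1 + 2 * δ)) := by
      unfold GF
      rw [norm_div]
      have := hC1b η (2 * δ) s hη (by linarith) hδ1 (by linarith)
      rw [Real.mul_rpow hη.le hn0.le] at this
      rw [div_le_iff₀ hn0]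
      have h5 : ‖s‖ ^ (-(1 + 2 * δ)) * ‖s‖ = ‖s‖ ^ (-(2 * δ)) := by
        nth_rewrite 2 [← Real.rpow_one ‖s‖]
        rw [← Real.rpow_add hn0]
        congr 1
        ring
      calc ‖DD (deriv (Ph η)) s‖ ≤ C1 * (η ^ (-(2 * δ)) * ‖s‖ ^ (-(2 * δ))) := this
        _ = C1 * η ^ (-(2 * δ)) * (‖s‖ ^ (-(1 + 2 * δ)) * ‖s‖) := by rw [h5]; ring
        _ = _ := by ring
    have e4 : ‖s‖ ^ (-(1 + 2 * δ)) ≤ 16 * (1 + |s.im|) ^ (-(1 + 2 * δ)) := by
      have h1 : (1 + |s.im|) / 4 ≤ ‖s‖ := by linarith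
      have h2 : ‖s‖ ^ (-(1 + 2 * δ)) ≤ ((1 + |s.im|) / 4) ^ (-(1 + 2 * δ)) :=
        Real.rpow_le_rpow_of_nonpos (by positivity) h1 (by linarith)
      rw [Real.div_rpow hT.le (by norm_num)] at h2
      refine h2.trans ?_
      rw [div_eq_mul_inv, mul_comm, ← Real.rpow_neg (by norm_num : (0:ℝ) ≤ 4), neg_neg]
      refine mul_le_mul_of_nonneg_right ?_ (by positivity)
      calc (4:ℝ) ^ (1 + 2 * δ) ≤ (4:ℝ) ^ (2:ℝ) := Real.rpow_le_rpow_of_exponent_le (by norm_num) (by linarith)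
        _ = 16 := by norm_num
    have e5 : (1 + |s.im|) ^ (-(1 + 2 * δ)) * (1 + |s.im|) ^ δ = (1 + |s.im|) ^ (-(1 + δ)) := by
      rw [← Real.rpow_add hT]
      congr 1
      ring
    rw [e1]
    calc ‖GF (Ph η) s‖ * ‖PL s‖ * Real.exp (σ * t)
        ≤ (C1 * η ^ (-(2 * δ)) * (16 * (1 + |s.im|) ^ (-(1 + 2 * δ)))) * (D * (1 + |s.im|) ^ δ) * Real.exp (σ * t) := by
          gcongr
          exact e3.trans (mul_le_mul_of_nonneg_left e4 (by positivity))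
      _ = (16 * C1 * D * η ^ (-(2 * δ)) * Real.exp (σ * t)) * ((1 + |s.im|) ^ (-(1 + 2 * δ)) * (1 + |s.im|) ^ δ) := by
          ring
      _ = _ := by rw [e5]
  calc ‖∫ ξ : ℝ, f (ln σ ξ)‖ ≤ ∫ ξ : ℝ, (16 * C1 * D * η ^ (-(2 * δ)) * Real.exp (σ * t)) *
      (1 + |2 * Real.pi * ξ|) ^ (-(1 + δ)) := norm_integral_le_of_norm_le (hI.const_mul _) (ae_of_all _ hbound)
    _ = 16 * C1 * D * I0 * (η ^ (-(2 * δ)) * Real.exp (σ * t)) := by
        rw [integral_const_mul]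
        ring
    _ ≤ (16 * C1 * D * I0 + 1) * (η ^ (-(2 * δ)) * Real.exp (σ * t)) := by
        have : 0 ≤ η ^ (-(2 * δ)) * Real.exp (σ * t) := by positivity
        nlinarith
    _ = _ := by ring

end

end H313.PW
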