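import Pool.Agent.H313R3.PW.C

/-!
# `ψ(x) - x` in a zero-free half plane
-/

open Complex MeasureTheory ProbabilityTheory Filter Topology Set Metric
open ArithmeticFunction (vonMangoldt)
open scoped ContDiff

set_option linter.unusedSectionVars false
set_option autoImplicit false

namespace H313.PW

open H353 H313.LW

noncomputable section

/-- the main term -/
def JJ (η t : ℝ) : ℝ := ∫ v in Ioi (0:ℝ), Real.exp v * Ph η (t - v)

theorem JJ_int (η t : ℝ) (hη : 0 < η) : IntegrableOn (fun v => Real.exp v * Ph η (t - v)) (Ioi (0:ℝ)) := by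
  have h1 : Integrable ((Icc 0 t).indicator (fun v : ℝ => Real.exp v)) := by
    have : IntegrableOn (fun v : ℝ => Real.exp v) (Icc 0 t) :=
      Real.continuous_exp.continuousOn.integrableOn_compact isCompact_Icc
    exact this.integrable_indicator measurableSet_Icc
  have hc := (Ph_smooth η).continuous
  refine (h1.integrableOn (s := Ioi 0)).mono' (by fun_prop : Continuous _).aestronglyMeasurable ?_
  refine (ae_restrict_iff' measurableSet_Ioi).2 (ae_of_all _ fun v hv => ?_)
  rw [norm_mul, Real.norm_eq_abs, Real.norm_eq_abs, abs_of_pos (Real.exp_pos v), abs_of_nonneg (Ph_nonneg _ _)]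
  have hv0 : 0 < v := hv
  by_cases hvt : v ≤ t
  · rw [indicator_of_mem (show v ∈ Icc 0 t from ⟨hv0.le, hvt⟩)]
    exact mul_le_of_le_one_right (Real.exp_pos v).le (Ph_le_one _ _)
  · rw [indicator_of_notMem (fun h => hvt h.2), Ph_zero η hη _ (by linarith), mul_zero]

theorem JJ_le (η t : ℝ) (hη : 0 < η) (ht : 0 ≤ t) : JJ η t ≤ Real.exp t := by
  have h1 : IntegrableOn ((Ioc 0 t).indicator (fun v : ℝ => Real.exp v)) (Ioi 0) := by
    have : IntegrableOn (fun v : ℝ => Real.exp v) (Ioc 0 t) :=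
      (Real.continuous_exp.continuousOn.integrableOn_compact isCompact_Icc).mono_set Ioc_subset_Icc_self
    exact (this.integrable_indicator measurableSet_Ioc).integrableOn
  have h2 : JJ η t ≤ ∫ v in Ioi (0:ℝ), (Ioc 0 t).indicator (fun v : ℝ => Real.exp v) v := by
    refine setIntegral_mono_on (JJ_int η t hη) h1 measurableSet_Ioi fun v hv => ?_
    have hv0 : 0 < v := hv
    by_cases hvt : v ≤ t
    · rw [indicator_of_mem (show v ∈ Ioc 0 t from ⟨hv0, hvt⟩)]
      exact mul_le_of_le_one_right (Real.exp_pos v).le (Ph_le_one _ _)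
    · rw [indicator_of_notMem (fun h => hvt h.2), Ph_zero η hη _ (by linarith), mul_zero]
  have h3 : ∫ v in Ioi (0:ℝ), (Ioc 0 t).indicator (fun v : ℝ => Real.exp v) v = Real.exp t - 1 := by
    rw [setIntegral_indicator measurableSet_Ioc]
    have : Ioi 0 ∩ Ioc 0 t = Ioc 0 t := inter_eq_right.2 fun v hv => hv.1
    rw [this, ← intervalIntegral.integral_of_le ht, integral_exp, Real.exp_zero]
  linarith

theorem JJ_ge (η t : ℝ) (hη : 0 < η) : Real.exp (t - η) - 1 ≤ JJ η t := by
  have hnn : 0 ≤ JJ η t := integral_nonneg fun v => mul_nonneg (Real.exp_pos v).le (Ph_nonneg _ _)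
  rcases le_total t η with h | h
  · have : Real.exp (t - η) ≤ 1 := Real.exp_le_one_iff.2 (by linarith)
    linarith
  · have h1 : IntegrableOn ((Ioc 0 (t - η)).indicator (fun v : ℝ => Real.exp v)) (Ioi 0) := by
      have : IntegrableOn (fun v : ℝ => Real.exp v) (Ioc 0 (t - η)) :=
        (Real.continuous_exp.continuousOn.integrableOn_compact isCompact_Icc).mono_set Ioc_subset_Icc_self
      exact (this.integrable_indicator measurableSet_Ioc).integrableOn
    have h2 : ∫ v in Ioi (0:ℝ), (Ioc 0 (t - η)).indicator (fun v : ℝ => Real.exp v) v ≤ JJ η t := by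
      refine setIntegral_mono_on h1 (JJ_int η t hη) measurableSet_Ioi fun v hv => ?_
      by_cases hvt : v ∈ Ioc 0 (t - η)
      · rw [indicator_of_mem hvt, Ph_one η hη _ (by linarith [hvt.2]), mul_one]
      · rw [indicator_of_notMem hvt]
        exact mul_nonneg (Real.exp_pos v).le (Ph_nonneg _ _)
    have h3 : ∫ v in Ioi (0:ℝ), (Ioc 0 (t - η)).indicator (fun v : ℝ => Real.exp v) v = Real.exp (t - η) - 1 := by
      rw [setIntegral_indicator measurableSet_Ioc]
      have : Ioi 0 ∩ Ioc 0 (t - η) = Ioc 0 (t - η) := inter_eq_right.2 fun v hv => hv.1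
      rw [this, ← intervalIntegral.integral_of_le (by linarith), integral_exp, Real.exp_zero]
    linarith

theorem psi_up (η x : ℝ) (hη : 0 < η) (hx : 0 < x) :
    SS aV x ≤ SG aV (Ph η) (Real.log (x * Real.exp η)) := by
  have hxe : 0 < x * Real.exp η := mul_pos hx (Real.exp_pos η)
  rw [SG_eq (Ph_ST η hη) aV_zero (x * Real.exp η) hxe]
  unfold SS
  have h1 : Finset.Icc 1 ⌊x⌋₊ ⊆ Finset.Icc 1 ⌊x * Real.exp η⌋₊ := by
    refine Finset.Icc_subset_Icc_right (Nat.floor_mono ?_)
    have : 1 ≤ Real.exp η := Real.one_le_exp hη.le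
    nlinarith
  refine le_trans (le_of_eq ?_) (Finset.sum_le_sum_of_subset_of_nonneg h1 fun n _ _ =>
    mul_nonneg (aV_nonneg n) (Ph_nonneg _ _))
  refine Finset.sum_congr rfl fun n hn => ?_
  rw [Finset.mem_Icc] at hn
  have hn0 : (0:ℝ) < n := by exact_mod_cast hn.1
  have hnx : (n:ℝ) ≤ x := (Nat.le_floor_iff hx.le).1 hn.2
  rw [Ph_one η hη, mul_one]
  rw [Real.log_div hxe.ne' hn0.ne', Real.log_mul hx.ne' (Real.exp_pos η).ne', Real.log_exp]
  have := Real.log_le_log hn0 hnx
  linarith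

theorem psi_low (η x : ℝ) (hη : 0 < η) (hx : 0 < x) :
    SG aV (Ph η) (Real.log x) ≤ SS aV x := by
  rw [SG_eq (Ph_ST η hη) aV_zero x hx]
  unfold SS
  refine Finset.sum_le_sum fun n _ => ?_
  exact mul_le_of_le_one_right (aV_nonneg n) (Ph_le_one _ _)

theorem psi_bound (θ : ℝ) (h0 : 1 / 2 ≤ θ) (h1 : θ < 1) (hz : ∀ s : ℂ, θ < s.re → FF s ≠ 0) (ε : ℝ)
    (hε : 0 < ε) : ∃ C : ℝ, 0 < C ∧ ∀ x : ℝ, 1 ≤ x → |SS aV x - x| ≤ C * x ^ (θ + ε) := by
  set e : ℝ := min ε (1 - θ) with he
  have he0 : 0 < e := lt_min hε (by linarith)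
  have he1 : e ≤ 1 - θ := min_le_right _ _
  have he2 : e ≤ ε := min_le_left _ _
  obtain ⟨C, hC, hb⟩ := PL_shift θ (θ + e / 2) (e / 4) h0 (by linarith) (by linarith) (by linarith) (by linarith) hz
  refine ⟨2 + 3 * C, by positivity, fun x hx => ?_⟩
  have hx0 : 0 < x := by linarith
  set η : ℝ := 1 / x with hη
  have hη0 : 0 < η := by positivity
  have hη1 : η ≤ 1 := by rw [hη, div_le_one hx0]; exact hx
  have hform : ∀ t : ℝ, |SG aV (Ph η) t - JJ η t| ≤ C * η ^ (-(2 * (e / 4))) * Real.exp ((θ + e / 2) * t) := by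
    intro t
    have h := psi_formula (Ph_ST η hη0) t
    have h2 := hb η t hη0
    rw [← h, Complex.norm_real, Real.norm_eq_abs] at h2
    exact h2
  have hη3 : η ^ (-(2 * (e / 4))) = x ^ (e / 2) := by
    rw [hη, one_div, Real.inv_rpow hx0.le, ← Real.rpow_neg hx0.le]
    congr 1
    ring
  have hxe : 0 < x * Real.exp η := mul_pos hx0 (Real.exp_pos η)
  have e1 : Real.exp ((θ + e / 2) * Real.log x) = x ^ (θ + e / 2) := by
    rw [Real.rpow_def_of_pos hx0, mul_comm]
  have e2 : Real.exp ((θ + e / 2) * Real.log (x * Real.exp η)) ≤ 3 * x ^ (θ + e / 2) := by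
    rw [Real.log_mul hx0.ne' (Real.exp_pos η).ne', Real.log_exp, mul_add, Real.exp_add, e1, mul_comm]
    refine mul_le_mul_of_nonneg_right ?_ (by positivity)
    calc Real.exp ((θ + e / 2) * η) ≤ Real.exp 1 := Real.exp_le_exp.2 (by nlinarith)
      _ ≤ 3 := by linarith [Real.exp_one_lt_d9]
  have e3 : x ^ (e / 2) * x ^ (θ + e / 2) = x ^ (θ + e) := by
    rw [← Real.rpow_add hx0]
    congr 1
    ring
  have e4 : x ^ (θ + e) ≤ x ^ (θ + ε) := Real.rpow_le_rpow_of_exponent_le hx (by linarith)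
  have e5 : (1:ℝ) ≤ x ^ (θ + e) := Real.one_le_rpow hx (by linarith)
  have hup := psi_up η x hη0 hx0
  have hlow := psi_low η x hη0 hx0
  have k1 := abs_le.1 (hform (Real.log (x * Real.exp η)))
  have k2 := abs_le.1 (hform (Real.log x))
  rw [hη3] at k1 k2
  rw [e1] at k2
  have j1 := JJ_le η (Real.log (x * Real.exp η)) hη0 (Real.log_nonneg (by
    have : 1 ≤ Real.exp η := Real.one_le_exp hη0.le
    nlinarith))
  rw [Real.exp_log hxe] at j1
  have j2 := JJ_ge η (Real.log x) hη0
  rw [Real.exp_sub, Real.exp_log hx0] at j2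
  have hxη : x * η = 1 := by rw [hη]; field_simp
  have m1 : x * Real.exp η ≤ x + 2 := by
    have h5 : Real.exp η ≤ 1 + 2 * η := by
      have h6 := Real.exp_bound_div_one_sub_of_interval hη0.le
      have h7 : Real.exp η ≤ 1 + η + η ^ 2 := by
        have := Real.abs_exp_sub_one_sub_id_le (x := η) (by rw [abs_of_pos hη0]; exact hη1)
        have := (abs_le.1 this).2
        linarith
      nlinarith
    nlinarith
  have m2 : x - 1 ≤ x / Real.exp η := by
    rw [div_eq_mul_inv, ← Real.exp_neg]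
    have := Real.add_one_le_exp (-η)
    nlinarith
  have c1 : C * x ^ (e / 2) * Real.exp ((θ + e / 2) * Real.log (x * Real.exp η)) ≤ 3 * C * x ^ (θ + e) := by
    calc C * x ^ (e / 2) * Real.exp ((θ + e / 2) * Real.log (x * Real.exp η))
        ≤ C * x ^ (e / 2) * (3 * x ^ (θ + e / 2)) := by gcongr
      _ = 3 * C * (x ^ (e / 2) * x ^ (θ + e / 2)) := by ring
      _ = _ := by rw [e3]
  have c2 : C * x ^ (e / 2) * x ^ (θ + e / 2) = C * x ^ (θ + e) := by rw [mul_assoc, e3]
  rw [c2] at k2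
  have fin : |SS aV x - x| ≤ (2 + 3 * C) * x ^ (θ + e) := by
    rw [abs_le]
    constructor
    · nlinarith [k2.1]
    · nlinarith [k1.2]
  exact fin.trans (mul_le_mul_of_nonneg_left e4 (by positivity))

end

end H313.PW
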