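import Pool.Agent.H313R3.PW.D

/-!
# The prime counting function in windows
-/

open Complex MeasureTheory ProbabilityTheory Filter Topology Set Metric
open ArithmeticFunction (vonMangoldt)
open scoped ContDiff

set_option linter.unusedSectionVars false
set_option autoImplicit false

namespace H313.PW

open H353 H313.LW

noncomputable section

/-- number of primes up to `y` -/
def pc (y : ℝ) : ℝ := (Nat.primeCounting ⌊y⌋₊ : ℝ)

/-- deviation of the number of primes in `(x, y]` -/
def DW (x y : ℝ) : ℝ := pc y - pc x - ∫ t in x..y, 1 / Real.log t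

theorem SS_psi (x : ℝ) : SS aV x = Chebyshev.psi x := by
  unfold SS Chebyshev.psi aV
  rfl

theorem pc_mono : Monotone pc := by
  intro a b hab
  unfold pc
  exact_mod_cast Nat.monotone_primeCounting (Nat.floor_mono hab)

theorem log_cont (x y : ℝ) (hx : 2 ≤ x) (hxy : x ≤ y) : ContinuousOn Real.log (uIcc x y) := by
  rw [uIcc_of_le hxy]
  exact Real.continuousOn_log.mono fun t ht => by
    simp only [mem_compl_iff, mem_singleton_iff]
    linarith [ht.1]

theorem log_ge_half {t : ℝ} (ht : 2 ≤ t) : 1 / 2 < Real.log t := by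
  have h1 : Real.log 2 ≤ Real.log t := Real.log_le_log (by norm_num) ht
  have := Real.log_two_gt_d9
  linarith

theorem log_ne {t : ℝ} (ht : 2 ≤ t) : Real.log t ≠ 0 := by
  have := log_ge_half ht
  linarith

theorem inv_log_int (x y : ℝ) (hx : 2 ≤ x) (hxy : x ≤ y) :
    IntervalIntegrable (fun t => 1 / Real.log t) volume x y := by
  refine ContinuousOn.intervalIntegrable ?_
  refine continuousOn_const.div (log_cont x y hx hxy) fun t ht => ?_
  rw [uIcc_of_le hxy] at ht
  exact log_ne (hx.trans ht.1)

/-- `∫ dt / log t` by parts -/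
theorem li_parts (x y : ℝ) (hx : 2 ≤ x) (hxy : x ≤ y) :
    ∫ t in x..y, 1 / Real.log t = y / Real.log y - x / Real.log x + ∫ t in x..y, 1 / Real.log t ^ 2 := by
  have hI1 := inv_log_int x y hx hxy
  have hI2 : IntervalIntegrable (fun t => 1 / Real.log t ^ 2) volume x y := by
    refine ContinuousOn.intervalIntegrable ?_
    refine continuousOn_const.div ((log_cont x y hx hxy).pow 2) fun t ht => ?_
    rw [uIcc_of_le hxy] at ht
    exact pow_ne_zero 2 (log_ne (hx.trans ht.1))
  have h1 : ∫ t in x..y, (1 / Real.log t - 1 / Real.log t ^ 2) = y / Real.log y - x / Real.log x := by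
    refine intervalIntegral.integral_eq_sub_of_hasDerivAt (f := fun t => t / Real.log t) ?_ (hI1.sub hI2)
    intro t ht
    rw [uIcc_of_le hxy] at ht
    have ht2 : 2 ≤ t := hx.trans ht.1
    have hl := log_ne ht2
    have h2 := (hasDerivAt_id t).div (Real.hasDerivAt_log (by linarith : t ≠ 0)) hl
    refine h2.congr_deriv ?_
    have ht0 : t ≠ 0 := by linarith
    simp only [id]
    field_simp
  rw [intervalIntegral.integral_sub hI1 hI2] at h1
  linarith

theorem DW_eq_theta (x y : ℝ) (hx : 2 ≤ x) (hxy : x ≤ y) :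
    DW x y = (Chebyshev.theta y - y) / Real.log y - (Chebyshev.theta x - x) / Real.log x +
      ∫ t in x..y, (Chebyshev.theta t - t) / (t * Real.log t ^ 2) := by
  have h1 := Chebyshev.primeCounting_eq_theta_div_log_add_integral (hx.trans hxy)
  have h2 := Chebyshev.primeCounting_eq_theta_div_log_add_integral hx
  have hi : ∀ z : ℝ, 2 ≤ z → IntervalIntegrable (fun t => Chebyshev.theta t / (t * Real.log t ^ 2)) volume 2 z := by
    intro z hz
    rw [intervalIntegrable_iff_integrableOn_Icc_of_le hz]
    exact Chebyshev.integrableOn_theta_div_id_mul_log_sq z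
  have hixy : IntervalIntegrable (fun t => Chebyshev.theta t / (t * Real.log t ^ 2)) volume x y :=
    (hi x hx).symm.trans (hi y (hx.trans hxy))
  have h3 : (∫ t in (2:ℝ)..x, Chebyshev.theta t / (t * Real.log t ^ 2)) +
      ∫ t in x..y, Chebyshev.theta t / (t * Real.log t ^ 2) = ∫ t in (2:ℝ)..y, Chebyshev.theta t / (t * Real.log t ^ 2) :=
    intervalIntegral.integral_add_adjacent_intervals (hi x hx) hixy
  have hI2 : IntervalIntegrable (fun t => 1 / Real.log t ^ 2) volume x y := by
    refine ContinuousOn.intervalIntegrable ?_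
    refine continuousOn_const.div ((log_cont x y hx hxy).pow 2) fun t ht => ?_
    rw [uIcc_of_le hxy] at ht
    exact pow_ne_zero 2 (log_ne (hx.trans ht.1))
  have h4 : ∫ t in x..y, (Chebyshev.theta t - t) / (t * Real.log t ^ 2) =
      (∫ t in x..y, Chebyshev.theta t / (t * Real.log t ^ 2)) - ∫ t in x..y, 1 / Real.log t ^ 2 := by
    rw [← intervalIntegral.integral_sub hixy hI2]
    refine intervalIntegral.integral_congr fun t ht => ?_
    rw [uIcc_of_le hxy] at ht
    have ht2 : 2 ≤ t := hx.trans ht.1
    have hl := log_ne ht2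
    have ht0 : t ≠ 0 := by linarith
    field_simp
  unfold DW pc
  rw [h1, h2, li_parts x y hx hxy, h4, ← h3]
  ring

/-- from a bound for `θ(t) - t` to windows -/
theorem DW_bound (x y B : ℝ) (hx : 3 ≤ x) (hxy : x ≤ y) (hy : y ≤ 2 * x)
    (hB : ∀ t ∈ Icc x y, |Chebyshev.theta t - t| ≤ B) : |DW x y| ≤ 3 * B := by
  have hx2 : 2 ≤ x := by linarith
  have hlog : ∀ t, x ≤ t → 1 ≤ Real.log t := by
    intro t ht
    rw [Real.le_log_iff_exp_le (by linarith)]
    linarith [Real.exp_one_lt_d9]
  have hB0 : 0 ≤ B := (abs_nonneg _).trans (hB x ⟨le_rfl, hxy⟩)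
  rw [DW_eq_theta x y hx2 hxy]
  have b1 : |(Chebyshev.theta y - y) / Real.log y| ≤ B := by
    rw [abs_div, abs_of_pos (by linarith [hlog y hxy] : 0 < Real.log y), div_le_iff₀ (by linarith [hlog y hxy])]
    have := hB y ⟨hxy, le_rfl⟩
    nlinarith [hlog y hxy]
  have b2 : |(Chebyshev.theta x - x) / Real.log x| ≤ B := by
    rw [abs_div, abs_of_pos (by linarith [hlog x le_rfl] : 0 < Real.log x), div_le_iff₀ (by linarith [hlog x le_rfl])]
    have := hB x ⟨le_rfl, hxy⟩
    nlinarith [hlog x le_rfl]
  have b3 : |∫ t in x..y, (Chebyshev.theta t - t) / (t * Real.log t ^ 2)| ≤ B := by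
    have hb : ∀ t ∈ Set.uIoc x y, ‖(Chebyshev.theta t - t) / (t * Real.log t ^ 2)‖ ≤ B / x := by
      intro t ht
      rw [uIoc_of_le hxy] at ht
      have hl := hlog t ht.1.le
      have ht0 : 0 < t := by linarith [ht.1]
      rw [Real.norm_eq_abs, abs_div, abs_of_pos (by positivity : 0 < t * Real.log t ^ 2)]
      have hl2 : 1 ≤ Real.log t ^ 2 := one_le_pow₀ hl
      have h1 : x ≤ t * Real.log t ^ 2 := by nlinarith [ht.1]
      exact div_le_div₀ hB0 (hB t ⟨ht.1.le, ht.2⟩) (by linarith) h1
    have h2 := intervalIntegral.norm_integral_le_of_norm_le_const hb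
    rw [Real.norm_eq_abs] at h2
    refine h2.trans ?_
    rw [abs_of_nonneg (by linarith : 0 ≤ y - x), div_mul_eq_mul_div, div_le_iff₀ (by linarith)]
    nlinarith
  calc _ ≤ |(Chebyshev.theta y - y) / Real.log y - (Chebyshev.theta x - x) / Real.log x| +
        |∫ t in x..y, (Chebyshev.theta t - t) / (t * Real.log t ^ 2)| := abs_add_le _ _
    _ ≤ (|(Chebyshev.theta y - y) / Real.log y| + |(Chebyshev.theta x - x) / Real.log x|) + B :=
        add_le_add (abs_sub _ _) b3
    _ ≤ 3 * B := by linarith

/-- back from windows to `θ` -/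
theorem theta_eq_DW (x y : ℝ) (hx : 2 ≤ x) (hxy : x ≤ y) :
    Chebyshev.theta y - Chebyshev.theta x - (y - x) = DW x y * Real.log y - ∫ t in x..y, DW x t / t := by
  have h1 := Chebyshev.theta_eq_primeCounting_mul_log_sub_integral (hx.trans hxy)
  have h2 := Chebyshev.theta_eq_primeCounting_mul_log_sub_integral hx
  have hinv : ∀ p q : ℝ, 2 ≤ p → p ≤ q → ContinuousOn (fun t : ℝ => t⁻¹) (uIcc p q) := by
    intro p q hp hpq
    refine ContinuousOn.inv₀ continuousOn_id fun t ht => ?_
    rw [uIcc_of_le hpq] at ht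
    show t ≠ 0
    linarith [ht.1]
  have hpc : ∀ p q : ℝ, 2 ≤ p → p ≤ q → IntervalIntegrable (fun t => pc t / t) volume p q := by
    intro p q hp hpq
    have := (pc_mono.intervalIntegrable (μ := volume) (a := p) (b := q)).mul_continuousOn (hinv p q hp hpq)
    exact this
  have h3 : (∫ t in (2:ℝ)..x, pc t / t) + ∫ t in x..y, pc t / t = ∫ t in (2:ℝ)..y, pc t / t :=
    intervalIntegral.integral_add_adjacent_intervals (hpc 2 x le_rfl hx) (hpc x y hx hxy)
  have hLi : ContinuousOn (fun t => ∫ u in x..t, 1 / Real.log u) (uIcc x y) := by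
    have hii : IntegrableOn (fun u => 1 / Real.log u) (uIcc x y) := by
      rw [uIcc_of_le hxy]
      exact (intervalIntegrable_iff_integrableOn_Icc_of_le hxy).1 (inv_log_int x y hx hxy)
    exact intervalIntegral.continuousOn_primitive_interval hii
  have hLi2 : IntervalIntegrable (fun t => (∫ u in x..t, 1 / Real.log u) / t) volume x y := by
    refine ContinuousOn.intervalIntegrable ?_
    exact hLi.mul (hinv x y hx hxy)
  -- y - x by parts
  have h4 : ∫ t in x..y, (1 + (∫ u in x..t, 1 / Real.log u) / t) = (∫ u in x..y, 1 / Real.log u) * Real.log y := by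
    have hcont : ContinuousOn (fun t => (∫ u in x..t, 1 / Real.log u) * Real.log t) (Icc x y) := by
      rw [uIcc_of_le hxy] at hLi
      exact hLi.mul (by have := log_cont x y hx hxy; rwa [uIcc_of_le hxy] at this)
    have h5 := intervalIntegral.integral_eq_sub_of_hasDerivAt_of_le hxy hcont
      (f' := fun t => 1 + (∫ u in x..t, 1 / Real.log u) / t) (fun t ht => by
        have ht2 : 2 < t := lt_of_le_of_lt hx ht.1
        have hl := log_ne ht2.le
        have hd1 : HasDerivAt (fun t => ∫ u in x..t, 1 / Real.log u) (1 / Real.log t) t := by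
          have hca : ContinuousAt (fun u => 1 / Real.log u) t :=
            continuousAt_const.div (Real.continuousAt_log (by linarith)) hl
          refine intervalIntegral.integral_hasDerivAt_right (inv_log_int x t hx ht.1.le) ?_ hca
          have ho : IsOpen (Ioi (1:ℝ)) := isOpen_Ioi
          refine ContinuousOn.stronglyMeasurableAtFilter ho (μ := volume) (f := fun u => 1 / Real.log u) ?_ t
            (show (1:ℝ) < t by linarith)
          intro u hu
          have hu1 : (1:ℝ) < u := hu
          have : Real.log u ≠ 0 := (Real.log_pos hu1).ne'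
          exact (continuousAt_const.div (Real.continuousAt_log (by linarith)) this).continuousWithinAt
        have hd2 := Real.hasDerivAt_log (by linarith : t ≠ 0)
        refine (hd1.mul hd2).congr_deriv ?_
        field_simp) (intervalIntegrable_const.add hLi2)
    rw [h5]
    simp
  rw [intervalIntegral.integral_add intervalIntegrable_const hLi2, intervalIntegral.integral_const] at h4
  have h5 : ∫ t in x..y, pc x / t = pc x * (Real.log y - Real.log x) := by
    have : ∀ t : ℝ, pc x / t = pc x * t⁻¹ := fun t => div_eq_mul_inv _ _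
    simp_rw [this]
    rw [intervalIntegral.integral_const_mul, integral_inv_of_pos (by linarith) (by linarith),
      Real.log_div (by linarith) (by linarith)]
  have hcx : IntervalIntegrable (fun t => pc x / t) volume x y := by
    refine ContinuousOn.intervalIntegrable ?_
    exact continuousOn_const.mul (hinv x y hx hxy)
  have h6 : ∫ t in x..y, DW x t / t = (∫ t in x..y, pc t / t) - (∫ t in x..y, pc x / t) -
      ∫ t in x..y, (∫ u in x..t, 1 / Real.log u) / t := by
    rw [← intervalIntegral.integral_sub (hpc x y hx hxy) hcx,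
      ← intervalIntegral.integral_sub ((hpc x y hx hxy).sub hcx) hLi2]
    refine intervalIntegral.integral_congr fun t _ => ?_
    unfold DW
    ring
  rw [h6, h5]
  have e1 : Chebyshev.theta y = pc y * Real.log y - ∫ t in (2:ℝ)..y, pc t / t := h1
  have e2 : Chebyshev.theta x = pc x * Real.log x - ∫ t in (2:ℝ)..x, pc t / t := h2
  rw [e1, e2, ← h3]
  unfold DW
  simp only [smul_eq_mul, mul_one] at h4
  linear_combination (-1 : ℝ) * h4

theorem theta_window (x y B : ℝ) (hx : 2 ≤ x) (hxy : x ≤ y)
    (hB : ∀ t ∈ Icc x y, |DW x t| ≤ B) :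
    |Chebyshev.theta y - y - (Chebyshev.theta x - x)| ≤ 2 * B * Real.log y := by
  have hB0 : 0 ≤ B := (abs_nonneg _).trans (hB x ⟨le_rfl, hxy⟩)
  have e : Chebyshev.theta y - y - (Chebyshev.theta x - x) = DW x y * Real.log y - ∫ t in x..y, DW x t / t := by
    rw [← theta_eq_DW x y hx hxy]
    ring
  have hlx : 0 < Real.log x := by have := log_ge_half hx; linarith
  have hly : 0 < Real.log y := by have := log_ge_half (hx.trans hxy); linarith
  rw [e]
  have b1 : |DW x y * Real.log y| ≤ B * Real.log y := by
    rw [abs_mul, abs_of_pos hly]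
    exact mul_le_mul_of_nonneg_right (hB y ⟨hxy, le_rfl⟩) hly.le
  have hinvc : ContinuousOn (fun t : ℝ => B * t⁻¹) (uIcc x y) := by
    refine continuousOn_const.mul (ContinuousOn.inv₀ continuousOn_id fun t ht => ?_)
    rw [uIcc_of_le hxy] at ht
    show t ≠ 0
    linarith [ht.1]
  have b2 : ‖∫ t in x..y, DW x t / t‖ ≤ ∫ t in x..y, B * t⁻¹ := by
    refine intervalIntegral.norm_integral_le_of_norm_le hxy (ae_of_all _ fun t ht => ?_)
      hinvc.intervalIntegrable
    have ht0 : 0 < t := by linarith [ht.1]
    rw [Real.norm_eq_abs, abs_div, abs_of_pos ht0, div_eq_mul_inv]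
    exact mul_le_mul_of_nonneg_right (hB t ⟨ht.1.le, ht.2⟩) (by positivity)
  rw [intervalIntegral.integral_const_mul, integral_inv_of_pos (by linarith) (by linarith),
    Real.log_div (by linarith) (by linarith), Real.norm_eq_abs] at b2
  have b3 : B * (Real.log y - Real.log x) ≤ B * Real.log y := mul_le_mul_of_nonneg_left (by linarith) hB0
  refine (abs_sub _ _).trans ?_
  linarith

end

end H313.PW
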